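import Mathlib.Combinatorics.SimpleGraph.CycleGraph
import Mathlib.Combinatorics.SimpleGraph.Copy
import Mathlib.Data.Set.Card
import Mathlib.Tactic

/-!
# Saturation number of even cycles in complete bipartite graphs

For every `l ≥ 4` and all `n₁, n₂ ≥ l + 2` there is a `C_{2l}`-saturated subgraph of
`K_{n₁,n₂}` with fewer than `n₁ + n₂ + l ^ 2 - 3 l + 1` edges.
-/

namespace Pool.Agent.Results.MP_7875f2_co.SmallerForAll

open SimpleGraph

/-- `H` is an `F`-saturated (spanning) subgraph of `G`: `H ≤ G`, `H` contains no copy of `F`, and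
adding to `H` any edge of `G` missing from `H` creates a copy of `F`. -/
def IsSaturated {V W : Type*} (G : SimpleGraph V) (F : SimpleGraph W) (H : SimpleGraph V) : Prop :=
  H ≤ G ∧ ¬ F.IsContained H ∧
    ∀ x y, G.Adj x y → ¬ H.Adj x y → F.IsContained (H ⊔ SimpleGraph.edge x y)

/-- The saturation number `sat(G, F)`: the least number of edges of an `F`-saturated subgraph
of `G`. -/
noncomputable def satNumber {V W : Type*} (G : SimpleGraph V) (F : SimpleGraph W) : ℕ :=
  sInf {k | ∃ H : SimpleGraph V, IsSaturated G F H ∧ H.edgeSet.ncard = k}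

/-- The adjacency pattern. -/
def R (p l i j : ℕ) : Prop :=
  (i < l ∧ j < l ∧ (i < p ∨ p ≤ j)) ∨ (i = p ∧ l ≤ j) ∨ (l ≤ i ∧ j = 0)

/-- The construction. -/
def H (p l n₁ n₂ : ℕ) : SimpleGraph (Fin n₁ ⊕ Fin n₂) where
  Adj u v := match u, v with
    | .inl i, .inr j => R p l i j
    | .inr j, .inl i => R p l i j
    | _, _ => False
  symm := by
    constructor
    rintro (i | i) (j | j) h <;> exact h
  loopless := by
    constructor
    rintro (i | i) h <;> exact h

/-- A cyclic sequence gives a copy of a cycle. -/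
theorem contains_of_seq {V : Type*} (G : SimpleGraph V) (l : ℕ) (hl : 2 ≤ l) (c d : ℕ → V)
    (hc : ∀ i < l, ∀ j < l, c i = c j → i = j) (hd : ∀ i < l, ∀ j < l, d i = d j → i = j)
    (hcd : ∀ i < l, ∀ j < l, c i ≠ d j)
    (h1 : ∀ i < l, G.Adj (c i) (d i)) (h2 : ∀ i, i + 1 < l → G.Adj (c (i + 1)) (d i))
    (h3 : G.Adj (c 0) (d (l - 1))) : (cycleGraph (2 * l)).IsContained G := by
  let f : Fin (2 * l) → V := fun k => if k.val % 2 = 0 then c (k.val / 2) else d (k.val / 2)
  have hstep : ∀ u v : Fin (2 * l), (u - v).val = 1 → G.Adj (f u) (f v) := by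
    intro u v huv
    rw [Fin.sub_def] at huv
    simp only at huv
    have hu := u.isLt
    have hv := v.isLt
    -- u = v + 1 or (v = 2l-1, u = 0)
    have hcase : u.val = v.val + 1 ∨ (v.val = 2 * l - 1 ∧ u.val = 0) := by
      by_cases h : v.val ≤ u.val
      · left
        have : 2 * l - v.val + u.val = 2 * l + (u.val - v.val) := by omega
        rw [this, Nat.add_mod_left, Nat.mod_eq_of_lt (by omega)] at huv
        omega
      · right
        rw [Nat.mod_eq_of_lt (by omega)] at huv
        omega
    rcases hcase with h | ⟨h, h'⟩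
    · rcases Nat.even_or_odd' v.val with ⟨m, hm | hm⟩
      · have e1 : f v = c m := by
          simp only [f, hm]
          rw [if_pos (by omega)]; congr 1; omega
        have e2 : f u = d m := by
          simp only [f, h, hm]
          rw [if_neg (by omega)]; congr 1; omega
        rw [e1, e2]
        exact (h1 m (by omega)).symm
      · have e1 : f v = d m := by
          simp only [f, hm]
          rw [if_neg (by omega)]; congr 1; omega
        have e2 : f u = c (m + 1) := by
          simp only [f, h, hm]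
          rw [if_pos (by omega)]; congr 1; omega
        rw [e1, e2]
        exact h2 m (by omega)
    · have e1 : f v = d (l - 1) := by
        simp only [f, h]
        rw [if_neg (by omega)]; congr 1; omega
      have e2 : f u = c 0 := by
        simp only [f, h']
        simp
      rw [e1, e2]
      exact h3
  refine ⟨⟨⟨f, ?_⟩, ?_⟩⟩
  · intro u v huv
    rw [cycleGraph_adj'] at huv
    rcases huv with h | h
    · exact hstep u v h
    · exact (hstep v u h).symm
  · intro u v huv
    have hu := u.isLt
    have hv := v.isLt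
    change f u = f v at huv
    simp only [f] at huv
    apply Fin.ext
    split_ifs at huv with h h' h'
    · have := hc _ (by omega) _ (by omega) huv
      omega
    · exact absurd huv (hcd _ (by omega) _ (by omega))
    · exact absurd huv.symm (hcd _ (by omega) _ (by omega))
    · have := hd _ (by omega) _ (by omega) huv
      omega

/-- Arithmetic form of the previous lemma for the construction plus an edge. -/
theorem contains_add (p l n₁ n₂ : ℕ) (hl : 2 ≤ l) (i₀ : Fin n₁) (j₀ : Fin n₂) (c d : ℕ → ℕ)
    (hcn : ∀ t < l, c t < n₁) (hdn : ∀ t < l, d t < n₂)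
    (hc : ∀ i < l, ∀ j < l, c i = c j → i = j) (hd : ∀ i < l, ∀ j < l, d i = d j → i = j)
    (h1 : ∀ i < l, R p l (c i) (d i) ∨ (c i = i₀ ∧ d i = j₀))
    (h2 : ∀ i, i + 1 < l → R p l (c (i + 1)) (d i) ∨ (c (i + 1) = i₀ ∧ d i = j₀))
    (h3 : R p l (c 0) (d (l - 1)) ∨ (c 0 = i₀ ∧ d (l - 1) = j₀)) :
    (cycleGraph (2 * l)).IsContained
      (H p l n₁ n₂ ⊔ SimpleGraph.edge (Sum.inl i₀) (Sum.inr j₀)) := by
  have hn1 : 0 < n₁ := lt_of_le_of_lt (Nat.zero_le _) (hcn 0 (by omega))
  have hn2 : 0 < n₂ := lt_of_le_of_lt (Nat.zero_le _) (hdn 0 (by omega))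
  let C : ℕ → Fin n₁ ⊕ Fin n₂ := fun t => if h : c t < n₁ then Sum.inl ⟨c t, h⟩ else Sum.inl ⟨0, hn1⟩
  let D : ℕ → Fin n₁ ⊕ Fin n₂ := fun t => if h : d t < n₂ then Sum.inr ⟨d t, h⟩ else Sum.inr ⟨0, hn2⟩
  have hC : ∀ t (ht : t < l), C t = Sum.inl ⟨c t, hcn t ht⟩ := fun t ht => by
    simp only [C]; rw [dif_pos (hcn t ht)]
  have hD : ∀ t (ht : t < l), D t = Sum.inr ⟨d t, hdn t ht⟩ := fun t ht => by
    simp only [D]; rw [dif_pos (hdn t ht)]
  have hadj : ∀ s (hs : s < l) t (ht : t < l), (R p l (c s) (d t) ∨ (c s = i₀ ∧ d t = j₀)) →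
      (H p l n₁ n₂ ⊔ SimpleGraph.edge (Sum.inl i₀) (Sum.inr j₀)).Adj (C s) (D t) := by
    intro s hs t ht h
    rw [hC s hs, hD t ht, SimpleGraph.sup_adj]
    rcases h with h | ⟨h, h'⟩
    · left; exact h
    · right
      rw [SimpleGraph.edge_adj]
      refine ⟨Or.inl ⟨?_, ?_⟩, by simp⟩
      · congr 1; exact Fin.ext h
      · congr 1; exact Fin.ext h'
  apply contains_of_seq _ l hl C D
  · intro i hi j hj hij
    rw [hC i hi, hC j hj] at hij
    have := Fin.mk.inj (Sum.inl.inj hij)
    exact hc i hi j hj this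
  · intro i hi j hj hij
    rw [hD i hi, hD j hj] at hij
    have := Fin.mk.inj (Sum.inr.inj hij)
    exact hd i hi j hj this
  · intro i hi j hj hij
    rw [hC i hi, hD j hj] at hij
    cases hij
  · intro i hi
    exact hadj i hi i hi (h1 i hi)
  · intro i hi
    exact hadj (i + 1) hi i (by omega) (h2 i hi)
  · exact hadj 0 (by omega) (l - 1) (by omega) h3

/-- Swap. -/
def sw (a b x : ℕ) : ℕ := if x = a then b else if x = b then a else x

set_option maxHeartbeats 4000000 in
theorem saturating (p l n₁ n₂ : ℕ) (hp : 2 ≤ p) (hq : p + 2 ≤ l) (hn1 : l ≤ n₁) (hn2 : l ≤ n₂)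
    (i₀ : Fin n₁) (j₀ : Fin n₂) (hR : ¬ R p l i₀ j₀) :
    (cycleGraph (2 * l)).IsContained
      (H p l n₁ n₂ ⊔ SimpleGraph.edge (Sum.inl i₀) (Sum.inr j₀)) := by
  have hi := i₀.isLt
  have hj := j₀.isLt
  obtain ⟨i, hi'⟩ : ∃ i, i = i₀.val := ⟨_, rfl⟩
  obtain ⟨j, hj'⟩ : ∃ j, j = j₀.val := ⟨_, rfl⟩
  rw [← hi'] at hi hR
  rw [← hj'] at hj hR
  unfold R at hR
  by_cases hil : i < l
  · by_cases hjl : j < l
    · -- type 0
      have h1 : p ≤ i := by omega
      have h2 : j < p := by omega
      refine contains_add p l n₁ n₂ (by omega) i₀ j₀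
        (fun t => if t < l - p then sw p i (p + t) else t - (l - p))
        (fun t => if t < l - p then p + t else sw j (p - 1) (t - (l - p))) ?_ ?_ ?_ ?_ ?_ ?_ ?_
      all_goals (try simp only [sw, R, ← hi', ← hj'])
      · intro t ht; split_ifs <;> omega
      · intro t ht; split_ifs <;> omega
      · intro s hs t ht h; split_ifs at h <;> omega
      · intro s hs t ht h; split_ifs at h <;> omega
      · intro t ht; split_ifs <;> omega
      · intro t ht; split_ifs <;> omega
      · split_ifs <;> omega
    · by_cases hip : i < p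
      · -- type 1
        refine contains_add p l n₁ n₂ (by omega) i₀ j₀
          (fun t => if t < l - p then p + t else sw i (p - 1) (t - (l - p)))
          (fun t => if t < l - p then p + t else if t < l - 1 then t - (l - p) else j)
          ?_ ?_ ?_ ?_ ?_ ?_ ?_
        all_goals (try simp only [sw, R, ← hi', ← hj'])
        · intro t ht; split_ifs <;> omega
        · intro t ht; split_ifs <;> omega
        · intro s hs t ht h; split_ifs at h <;> omega
        · intro s hs t ht h; split_ifs at h <;> omega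
        · intro t ht; split_ifs <;> omega
        · intro t ht; split_ifs <;> omega
        · split_ifs <;> omega
      · -- type 2
        have hpi : p < i := by omega
        refine contains_add p l n₁ n₂ (by omega) i₀ j₀
          (fun t => if t < l - p - 1 then sw i (l - 1) (p + t) else
            if t < l - 1 then t - (l - p - 1) else i)
          (fun t => if t < l - p - 1 then p + t else if t < l - 2 then t - (l - p - 1) else
            if t < l - 1 then l - 1 else j)
          ?_ ?_ ?_ ?_ ?_ ?_ ?_
        all_goals (try simp only [sw, R, ← hi', ← hj'])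
        · intro t ht; split_ifs <;> omega
        · intro t ht; split_ifs <;> omega
        · intro s hs t ht h; split_ifs at h <;> omega
        · intro s hs t ht h; split_ifs at h <;> omega
        · intro t ht; split_ifs <;> omega
        · intro t ht; split_ifs <;> omega
        · split_ifs <;> omega
  · by_cases hjl : j < l
    · by_cases hjp : j < p
      · -- type 2'
        have hj0 : 0 < j := by omega
        refine contains_add p l n₁ n₂ (by omega) i₀ j₀
          (fun t => if t < p - 1 then t else if t < l - 2 then t + 1 else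
            if t < l - 1 then p - 1 else i)
          (fun t => if t + 1 < p - 1 then sw j (p - 1) (t + 1) else
            if t + 1 < l - 1 then t + 2 else if t + 1 < l then j else 0)
          ?_ ?_ ?_ ?_ ?_ ?_ ?_
        all_goals (try simp only [sw, R, ← hi', ← hj'])
        · intro t ht; split_ifs <;> omega
        · intro t ht; split_ifs <;> omega
        · intro s hs t ht h; split_ifs at h <;> omega
        · intro s hs t ht h; split_ifs at h <;> omega
        · intro t ht; split_ifs <;> omega
        · intro t ht; split_ifs <;> omega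
        · split_ifs <;> omega
      · -- type 1'
        refine contains_add p l n₁ n₂ (by omega) i₀ j₀
          (fun t => if t < l - 1 then t else i)
          (fun t => if t + 1 < p then t + 1 else if t + 1 < l then sw j (l - 1) (t + 1) else 0)
          ?_ ?_ ?_ ?_ ?_ ?_ ?_
        all_goals (try simp only [sw, R, ← hi', ← hj'])
        · intro t ht; split_ifs <;> omega
        · intro t ht; split_ifs <;> omega
        · intro s hs t ht h; split_ifs at h <;> omega
        · intro s hs t ht h; split_ifs at h <;> omega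
        · intro t ht; split_ifs <;> omega
        · intro t ht; split_ifs <;> omega
        · split_ifs <;> omega
    · -- type 3
      refine contains_add p l n₁ n₂ (by omega) i₀ j₀
        (fun t => if t < l - p then p + t else if t < l - 1 then t - (l - p) else i)
        (fun t => if t < l - p then p + t else if t < l - 1 then l - 2 - t else j)
        ?_ ?_ ?_ ?_ ?_ ?_ ?_
      all_goals (try simp only [R, ← hi', ← hj'])
      · intro t ht; split_ifs <;> omega
      · intro t ht; split_ifs <;> omega
      · intro s hs t ht h; split_ifs at h <;> omega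
      · intro s hs t ht h; split_ifs at h <;> omega
      · intro t ht; split_ifs <;> omega
      · intro t ht; split_ifs <;> omega
      · split_ifs <;> omega

theorem H_adj_inl_inr (p l n₁ n₂ : ℕ) (i : Fin n₁) (j : Fin n₂) :
    (H p l n₁ n₂).Adj (Sum.inl i) (Sum.inr j) ↔ R p l i j := Iff.rfl

/-- The construction contains no cycle of length `2 l`. -/
theorem free (p l n₁ n₂ : ℕ) (hp : 1 ≤ p) (hq : p + 1 ≤ l) :
    ¬ (cycleGraph (2 * l)).IsContained (H p l n₁ n₂) := by
  rintro ⟨f⟩
  obtain ⟨N, hN⟩ : ∃ N, 2 * l = N := ⟨_, rfl⟩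
  rw [hN] at f
  have : NeZero N := ⟨by omega⟩
  have hinj : Function.Injective f := f.injective
  -- consecutive indices
  have hstep : ∀ k : Fin N, (H p l n₁ n₂).Adj (f k) (f (k + 1)) := by
    intro k
    apply f.toHom.map_adj
    rw [cycleGraph_adj']
    right
    have : (k + 1 - k : Fin N) = 1 := by abel
    rw [this, Fin.val_one' , Nat.mod_eq_of_lt (by omega)]
  have hne2 : ∀ k : Fin N, k + 1 + 1 ≠ k := by
    intro k h
    have h2 := congrArg Fin.val h
    rw [Fin.val_add, Fin.val_add, Fin.val_one', Nat.mod_eq_of_lt (show 1 < N by omega)] at h2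
    have hk := k.isLt
    by_cases h3 : k.val + 1 < N
    · rw [Nat.mod_eq_of_lt h3] at h2
      by_cases h4 : k.val + 1 + 1 < N
      · rw [Nat.mod_eq_of_lt h4] at h2; omega
      · have : k.val + 1 + 1 = N := by omega
        rw [this, Nat.mod_self] at h2; omega
    · have : k.val + 1 = N := by omega
      rw [this, Nat.mod_self, Nat.mod_eq_of_lt (by omega)] at h2; omega
  -- leaves are not on the cycle
  have hA : ∀ k : Fin N, ∀ i : Fin n₁, f (k + 1) = Sum.inl i → i.val < l := by
    intro k i h
    by_contra hil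
    have h1 := (hstep k).symm
    have h2 := hstep (k + 1)
    rw [h] at h1 h2
    have key : ∀ v, (H p l n₁ n₂).Adj (Sum.inl i) v → ∃ j : Fin n₂, v = Sum.inr j ∧ j.val = 0 := by
      rintro (v | v) hv
      · exact hv.elim
      · refine ⟨v, rfl, ?_⟩
        have : R p l i v := hv
        unfold R at this
        omega
    obtain ⟨j1, e1, e1'⟩ := key _ h1
    obtain ⟨j2, e2, e2'⟩ := key _ h2
    have : j1 = j2 := Fin.ext (by omega)
    rw [← this] at e2
    exact hne2 k (hinj (e2.trans e1.symm))
  have hB : ∀ k : Fin N, ∀ j : Fin n₂, f (k + 1) = Sum.inr j → j.val < l := by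
    intro k j h
    by_contra hjl
    have h1 := (hstep k).symm
    have h2 := hstep (k + 1)
    rw [h] at h1 h2
    have key : ∀ v, (H p l n₁ n₂).Adj (Sum.inr j) v → ∃ i : Fin n₁, v = Sum.inl i ∧ i.val = p := by
      rintro (v | v) hv
      · refine ⟨v, rfl, ?_⟩
        have : R p l v j := hv
        unfold R at this
        omega
      · exact hv.elim
    obtain ⟨j1, e1, e1'⟩ := key _ h1
    obtain ⟨j2, e2, e2'⟩ := key _ h2
    have : j1 = j2 := Fin.ext (by omega)
    rw [← this] at e2
    exact hne2 k (hinj (e2.trans e1.symm))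
  have hsucc : ∀ k : Fin N, ∃ k', k = k' + 1 := fun k => ⟨k - 1, by abel⟩
  have hA' : ∀ k : Fin N, ∀ i : Fin n₁, f k = Sum.inl i → i.val < l := by
    intro k i h
    obtain ⟨k', rfl⟩ := hsucc k
    exact hA k' i h
  have hB' : ∀ k : Fin N, ∀ j : Fin n₂, f k = Sum.inr j → j.val < l := by
    intro k i h
    obtain ⟨k', rfl⟩ := hsucc k
    exact hB k' i h
  -- code the vertices by numbers below `2 l`
  let e : Fin n₁ ⊕ Fin n₂ → ℕ := Sum.elim (fun i => i.val) (fun j => l + j.val)
  have he : ∀ k : Fin N, e (f k) < 2 * l := by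
    intro k
    rcases h : f k with i | j
    · have := hA' k i h
      simp only [e, Sum.elim_inl]; omega
    · have := hB' k j h
      simp only [e, Sum.elim_inr]; omega
  have heinj : Function.Injective (fun k : Fin N => e (f k)) := by
    intro a b hab
    apply hinj
    simp only [e] at hab
    rcases ha : f a with i | j <;> rcases hb : f b with i' | j' <;> rw [ha, hb] at hab
    · simp only [Sum.elim_inl] at hab
      rw [Fin.ext hab]
    · have := hA' a i ha
      simp only [Sum.elim_inl, Sum.elim_inr] at hab; omega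
    · have := hA' b i' hb
      simp only [Sum.elim_inl, Sum.elim_inr] at hab; omega
    · simp only [Sum.elim_inr] at hab
      rw [Fin.ext (by omega : j.val = j'.val)]
  -- surjectivity onto codes
  have hsurj : ∀ m < 2 * l, ∃ k : Fin N, e (f k) = m := by
    have himg : (Finset.univ.image (fun k : Fin N => e (f k))) = Finset.range (2 * l) := by
      apply Finset.eq_of_subset_of_card_le
      · intro m hm
        obtain ⟨k, _, rfl⟩ := Finset.mem_image.1 hm
        exact Finset.mem_range.2 (he k)
      · rw [Finset.card_image_of_injective _ heinj, Finset.card_range, Finset.card_univ,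
          Fintype.card_fin, hN]
    intro m hm
    have := Finset.mem_range.2 hm
    rw [← himg] at this
    obtain ⟨k, _, hk⟩ := Finset.mem_image.1 this
    exact ⟨k, hk⟩
  -- S = indices of the vertices `p ≤ i < l` on the left, T = indices of `p ≤ j < l` on the right
  let S : Finset (Fin N) := Finset.univ.filter (fun k => p ≤ e (f k) ∧ e (f k) < l)
  let T : Finset (Fin N) := Finset.univ.filter (fun k => l + p ≤ e (f k))
  have hcardS : S.card = l - p := by
    have : S.image (fun k => e (f k)) = Finset.Ico p l := by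
      ext m
      simp only [S, Finset.mem_image, Finset.mem_filter, Finset.mem_univ, true_and, Finset.mem_Ico]
      constructor
      · rintro ⟨k, hk, rfl⟩; exact hk
      · intro hm
        obtain ⟨k, rfl⟩ := hsurj m (by omega)
        exact ⟨k, hm, rfl⟩
    rw [← Finset.card_image_of_injective S heinj, this, Nat.card_Ico]
  have hcardT : T.card = l - p := by
    have : T.image (fun k => e (f k)) = Finset.Ico (l + p) (2 * l) := by
      ext m
      simp only [T, Finset.mem_image, Finset.mem_filter, Finset.mem_univ, true_and, Finset.mem_Ico]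
      constructor
      · rintro ⟨k, hk, rfl⟩; exact ⟨hk, he k⟩
      · intro hm
        obtain ⟨k, rfl⟩ := hsurj m (by omega)
        exact ⟨k, hm.1, rfl⟩
    rw [← Finset.card_image_of_injective T heinj, this, Nat.card_Ico]
    omega
  -- neighbours of S lie in T
  have hnb : ∀ a b : Fin N, (H p l n₁ n₂).Adj (f a) (f b) → a ∈ S → b ∈ T := by
    intro a b hab ha
    simp only [S, T, Finset.mem_filter, Finset.mem_univ, true_and, e] at ha ⊢
    rcases ha' : f a with i | j
    · rw [ha'] at ha hab
      simp only [Sum.elim_inl] at ha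
      rcases hb : f b with i' | j'
      · rw [hb] at hab; exact hab.elim
      · rw [hb] at hab
        have h1 : R p l i j' := hab
        have h2 := hB' b j' hb
        unfold R at h1
        simp only [Sum.elim_inr]; omega
    · rw [ha'] at ha
      simp only [Sum.elim_inr] at ha; omega
  have hS1 : S.image (fun k => k + 1) = T := by
    apply Finset.eq_of_subset_of_card_le
    · intro k hk
      obtain ⟨a, ha, rfl⟩ := Finset.mem_image.1 hk
      exact hnb a _ (hstep a) ha
    · rw [Finset.card_image_of_injective _ (add_left_injective 1), hcardS, hcardT]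
  have hS2 : T ⊆ S.image (fun k => k - 1) := by
    have : S.image (fun k => k - 1) = T := by
      apply Finset.eq_of_subset_of_card_le
      · intro k hk
        obtain ⟨a, ha, rfl⟩ := Finset.mem_image.1 hk
        apply hnb a _ _ ha
        have := hstep (a - 1)
        rw [sub_add_cancel] at this
        exact this.symm
      · rw [Finset.card_image_of_injective _ (sub_left_injective), hcardS, hcardT]
    rw [this]
  have hSS : ∀ k ∈ S, k + 1 + 1 ∈ S := by
    intro k hk
    have h1 : k + 1 ∈ T := by rw [← hS1]; exact Finset.mem_image_of_mem _ hk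
    obtain ⟨a, ha, hae⟩ := Finset.mem_image.1 (hS2 h1)
    have : a = k + 1 + 1 := by
      have : a - 1 = k + 1 := hae
      rw [← this]; abel
    rw [← this]; exact ha
  -- so no index maps to the code `0`
  have hST : ∀ k, k ∈ S ∨ k ∈ T := by
    obtain ⟨k0, hk0⟩ := hsurj p (by omega)
    have hk0S : k0 ∈ S := by
      simp only [S, Finset.mem_filter, Finset.mem_univ, true_and]; omega
    have hU : ∀ k, (k ∈ S ∨ k ∈ T) → (k + 1 ∈ S ∨ k + 1 ∈ T) := by
      rintro k (hk | hk)
      · right; rw [← hS1]; exact Finset.mem_image_of_mem _ hk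
      · left
        rw [← hS1] at hk
        obtain ⟨a, ha, hae⟩ := Finset.mem_image.1 hk
        rw [← hae]; exact hSS a ha
    have hall : ∀ m : ℕ, (Fin.ofNat N (k0.val + m) ∈ S ∨ Fin.ofNat N (k0.val + m) ∈ T) := by
      intro m
      induction m with
      | zero =>
        left
        have : Fin.ofNat N (k0.val + 0) = k0 := by
          apply Fin.ext
          simp [Fin.ofNat, Nat.mod_eq_of_lt k0.isLt]
        rw [this]; exact hk0S
      | succ m ih =>
        have e1 : Fin.ofNat N (k0.val + (m + 1)) = Fin.ofNat N (k0.val + m) + 1 := by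
          apply Fin.ext
          rw [Fin.val_add, Fin.val_one']
          simp only [Fin.ofNat, ← Nat.add_assoc]
          rw [Nat.add_mod]
        rw [e1]
        exact hU _ ih
    intro k
    have h1 := hall (N + k.val - k0.val)
    have h2 : Fin.ofNat N (k0.val + (N + k.val - k0.val)) = k := by
      have : k0.val + (N + k.val - k0.val) = N + k.val := by
        have := k0.isLt
        omega
      rw [this]
      apply Fin.ext
      simp [Fin.ofNat, Nat.mod_eq_of_lt k.isLt]
    rwa [h2] at h1
  obtain ⟨k1, hk1⟩ := hsurj 0 (by omega)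
  rcases hST k1 with h | h
  · simp only [S, Finset.mem_filter, Finset.mem_univ, true_and] at h
    omega
  · simp only [T, Finset.mem_filter, Finset.mem_univ, true_and] at h
    omega

theorem isSaturated (p l n₁ n₂ : ℕ) (hp : 2 ≤ p) (hq : p + 2 ≤ l) (hn1 : l ≤ n₁) (hn2 : l ≤ n₂) :
    IsSaturated (completeBipartiteGraph (Fin n₁) (Fin n₂)) (cycleGraph (2 * l))
      (H p l n₁ n₂) := by
  refine ⟨?_, free p l n₁ n₂ (by omega) (by omega), ?_⟩
  · rintro (i | i) (j | j) h
    · exact h.elim
    · simp
    · simp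
    · exact h.elim
  · rintro (i | i) (j | j) hG hH
    · simp at hG
    · exact saturating p l n₁ n₂ hp hq hn1 hn2 i j hH
    · rw [SimpleGraph.edge_comm]
      exact saturating p l n₁ n₂ hp hq hn1 hn2 j i (fun h => hH h)
    · simp at hG

/-- The number of edges. -/
theorem edges_le (p l n₁ n₂ : ℕ) (hp : p ≤ l) :
    (H p l n₁ n₂).edgeSet.ncard ≤ p * l + (l - p) * (l - p) + (n₂ - l) + (n₁ - l) := by
  classical
  let P : Finset (Fin n₁ × Fin n₂) := Finset.univ.filter (fun x => R p l x.1 x.2)
  have h1 : (H p l n₁ n₂).edgeSet ⊆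
      ((P.image (fun x => (s(Sum.inl x.1, Sum.inr x.2) : Sym2 (Fin n₁ ⊕ Fin n₂))) :
        Finset (Sym2 (Fin n₁ ⊕ Fin n₂))) : Set (Sym2 (Fin n₁ ⊕ Fin n₂))) := by
    intro x
    induction x using Sym2.ind with
    | _ u v =>
      intro hx
      rw [SimpleGraph.mem_edgeSet] at hx
      simp only [Finset.coe_image, Set.mem_image, Finset.mem_coe, P, Finset.mem_filter,
        Finset.mem_univ, true_and]
      rcases u with i | j <;> rcases v with i' | j'
      · exact hx.elim
      · exact ⟨(i, j'), hx, rfl⟩
      · exact ⟨(i', j), hx, Sym2.eq_swap⟩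
      · exact hx.elim
  have h2 : (H p l n₁ n₂).edgeSet.ncard ≤ P.card := by
    refine (Set.ncard_le_ncard h1 (Finset.finite_toSet _)).trans ?_
    rw [Set.ncard_coe_finset]
    exact Finset.card_image_le
  refine h2.trans ?_
  let g : Fin n₁ × Fin n₂ → ℕ × ℕ := fun x => (x.1.val, x.2.val)
  have hg : Function.Injective g := by
    rintro ⟨a, b⟩ ⟨a', b'⟩ h
    simp only [g, Prod.mk.injEq] at h
    exact Prod.ext (Fin.ext h.1) (Fin.ext h.2)
  rw [← Finset.card_image_of_injective P hg]
  have h3 : P.image g ⊆ (((Finset.range p ×ˢ Finset.range l) ∪ (Finset.Ico p l ×ˢ Finset.Ico p l)) ∪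
      ({p} ×ˢ Finset.Ico l n₂)) ∪ (Finset.Ico l n₁ ×ˢ {0}) := by
    intro x hx
    obtain ⟨⟨a, b⟩, hab, rfl⟩ := Finset.mem_image.1 hx
    have ha := a.isLt
    have hb := b.isLt
    have hab' : R p l a b := (Finset.mem_filter.1 hab).2
    unfold R at hab'
    simp only [g, Finset.mem_union, Finset.mem_product, Finset.mem_range, Finset.mem_Ico,
      Finset.mem_singleton]
    omega
  refine (Finset.card_le_card h3).trans ?_
  refine (Finset.card_union_le _ _).trans ?_
  refine (Nat.add_le_add_right (Finset.card_union_le _ _) _).trans ?_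
  refine (Nat.add_le_add_right (Nat.add_le_add_right (Finset.card_union_le _ _) _) _).trans ?_
  simp only [Finset.card_product, Finset.card_range, Nat.card_Ico, Finset.card_singleton, one_mul,
    mul_one, le_refl]

/-- For every `l ≥ 4` and all `n₁, n₂ ≥ l + 2`,
`sat(K_{n₁,n₂}, C_{2l}) ≤ n₁ + n₂ + l ^ 2 - 2 l - ⌊l ^ 2 / 4⌋ < n₁ + n₂ + l ^ 2 - 3 l + 1`. -/
theorem result : ∀ l n₁ n₂ : ℕ, 4 ≤ l → l + 2 ≤ n₁ → l + 2 ≤ n₂ →
    (satNumber (completeBipartiteGraph (Fin n₁) (Fin n₂)) (cycleGraph (2 * l)) : ℤ) ≤
      (n₁ : ℤ) + n₂ + (l : ℤ) ^ 2 - 2 * l - (l : ℤ) ^ 2 / 4 ∧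
    (satNumber (completeBipartiteGraph (Fin n₁) (Fin n₂)) (cycleGraph (2 * l)) : ℤ) <
      (n₁ : ℤ) + n₂ + (l : ℤ) ^ 2 - 3 * l + 1 := by
  intro l n₁ n₂ hl hn1 hn2
  have hsat := isSaturated (l / 2) l n₁ n₂ (by omega) (by omega) (by omega) (by omega)
  have hle : satNumber (completeBipartiteGraph (Fin n₁) (Fin n₂)) (cycleGraph (2 * l)) ≤
      (H (l / 2) l n₁ n₂).edgeSet.ncard := Nat.sInf_le ⟨_, hsat, rfl⟩
  have hle2 := hle.trans (edges_le (l / 2) l n₁ n₂ (by omega))
  have key : (l / 2) * l + (l - l / 2) * (l - l / 2) + (l / 2) * (l / 2 + l % 2) = l * l := by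
    obtain ⟨m, hm | hm⟩ := Nat.even_or_odd' l
    · have h1 : l / 2 = m := by omega
      have h2 : l - m = m := by omega
      have h3 : l % 2 = 0 := by omega
      rw [h1, h2, h3, hm]; ring
    · have h1 : l / 2 = m := by omega
      have h2 : l - m = m + 1 := by omega
      have h3 : l % 2 = 1 := by omega
      rw [h1, h2, h3, hm]; ring
  have key2 : (l : ℤ) ^ 2 / 4 = ((l / 2 : ℕ) : ℤ) * ((l / 2 + l % 2 : ℕ) : ℤ) := by
    obtain ⟨m, hm | hm⟩ := Nat.even_or_odd' l
    · have h1 : l / 2 = m := by omega
      have h3 : l % 2 = 0 := by omega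
      rw [h1, h3, hm]
      have : ((2 * m : ℕ) : ℤ) ^ 2 = 4 * ((m : ℤ) * m) := by push_cast; ring
      rw [this, Int.mul_ediv_cancel_left _ (by norm_num)]
      simp
    · have h1 : l / 2 = m := by omega
      have h3 : l % 2 = 1 := by omega
      rw [h1, h3, hm]
      have : ((2 * m + 1 : ℕ) : ℤ) ^ 2 = 1 + 4 * ((m : ℤ) * (m + 1)) := by push_cast; ring
      rw [this, Int.add_mul_ediv_left _ _ (by norm_num)]
      simp
  have hmain : (satNumber (completeBipartiteGraph (Fin n₁) (Fin n₂)) (cycleGraph (2 * l)) : ℤ) ≤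
      (n₁ : ℤ) + n₂ + (l : ℤ) ^ 2 - 2 * l - (l : ℤ) ^ 2 / 4 := by
    rw [key2]
    have h4 : ((l / 2 * l + (l - l / 2) * (l - l / 2) + (n₂ - l) + (n₁ - l) : ℕ) : ℤ) =
        (l : ℤ) ^ 2 - ((l / 2 : ℕ) : ℤ) * ((l / 2 + l % 2 : ℕ) : ℤ) + (n₂ - l) + (n₁ - l) := by
      have h5 : ((l / 2 * l + (l - l / 2) * (l - l / 2) : ℕ) : ℤ) =
          (l : ℤ) ^ 2 - ((l / 2 : ℕ) : ℤ) * ((l / 2 + l % 2 : ℕ) : ℤ) := by
        have := congrArg (fun x : ℕ => (x : ℤ)) key
        beta_reduce at this
        rw [Nat.cast_add, Nat.cast_mul (l / 2) (l / 2 + l % 2), Nat.cast_mul l l] at this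
        rw [pow_two]; linarith
      rw [Nat.cast_add, Nat.cast_add, h5, Nat.cast_sub (by omega), Nat.cast_sub (by omega)]
    have h6 : (satNumber (completeBipartiteGraph (Fin n₁) (Fin n₂)) (cycleGraph (2 * l)) : ℤ) ≤
        ((l / 2 * l + (l - l / 2) * (l - l / 2) + (n₂ - l) + (n₁ - l) : ℕ) : ℤ) := by
      exact_mod_cast hle2
    rw [h4] at h6
    linarith
  refine ⟨hmain, ?_⟩
  have h7 : (l : ℤ) ≤ (l : ℤ) ^ 2 / 4 := by
    rw [Int.le_ediv_iff_mul_le (by norm_num)]
    have : (4 : ℤ) ≤ l := by exact_mod_cast hl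
    nlinarith
  linarith

end Pool.Agent.Results.MP_7875f2_co.SmallerForAll
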